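import Mathlib

/-!
# Positive square energy: definition and the certificate inequality
-/

namespace Pool.Agent.SqEnergy

open Finset Matrix

variable {V : Type*} [Fintype V] [DecidableEq V]

/-- The real adjacency matrix is Hermitian. -/
theorem isHermitian_adj (G : SimpleGraph V) [DecidableRel G.Adj] :
    (G.adjMatrix ℝ).IsHermitian := by
  rw [Matrix.IsHermitian, Matrix.conjTranspose_eq_transpose_of_trivial]
  exact G.isSymm_adjMatrix

/-- The positive square energy `s⁺(G)`: the sum of the squares of the positive eigenvalues of the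
adjacency matrix (with multiplicities). -/
noncomputable def posSquareEnergy (G : SimpleGraph V) [DecidableRel G.Adj] : ℝ :=
  ∑ i with 0 < (isHermitian_adj G).eigenvalues i, (isHermitian_adj G).eigenvalues i ^ 2

/-- Spectral decomposition in coordinates. -/
lemma spectral (A : Matrix V V ℝ) (hA : A.IsHermitian) : ∃ U : V → V → ℝ,
    (∀ u v, A u v = ∑ i, hA.eigenvalues i * (U u i * U v i)) ∧
    ∀ u v, (if u = v then (1 : ℝ) else 0) = ∑ i, U u i * U v i := by
  refine ⟨fun u i => (hA.eigenvectorUnitary : Matrix V V ℝ) u i, ?_, ?_⟩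
  · intro u v
    have h := hA.spectral_theorem
    rw [Unitary.conjStarAlgAut_apply] at h
    have h2 := congrFun (congrFun h u) v
    rw [h2, Matrix.mul_apply]
    refine Finset.sum_congr rfl fun i _ => ?_
    rw [Matrix.mul_diagonal]
    simp [Matrix.star_apply]
    ring
  · intro u v
    have h : (hA.eigenvectorUnitary : Matrix V V ℝ) *
        star (hA.eigenvectorUnitary : Matrix V V ℝ) = 1 := by
      exact Unitary.coe_mul_star_self _
    have h2 := congrFun (congrFun h u) v
    rw [Matrix.mul_apply, Matrix.one_apply] at h2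
    rw [← h2]
    refine Finset.sum_congr rfl fun i _ => ?_
    simp [Matrix.star_apply]

/-- The certificate inequality `2⟨A, P⟩ - ‖P‖² ≤ s⁺` for `P = ∑ ω_k g_k g_kᵀ`. -/
lemma cert (A : Matrix V V ℝ) (hA : A.IsHermitian) {ι : Type*} [Fintype ι] (ω : ι → ℝ)
    (hω : ∀ k, 0 ≤ ω k) (g : ι → V → ℝ) :
    2 * (∑ k, ω k * ∑ u, ∑ v, A u v * g k u * g k v) -
      (∑ k, ∑ l, ω k * ω l * (∑ u, g k u * g l u) ^ 2) ≤
    ∑ i with 0 < hA.eigenvalues i, hA.eigenvalues i ^ 2 := by
  obtain ⟨U, h1, h2⟩ := spectral A hA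
  set c : ι → V → ℝ := fun k i => ∑ u, U u i * g k u with hc
  have e1 : ∀ k, ∑ u, ∑ v, A u v * g k u * g k v = ∑ i, hA.eigenvalues i * c k i ^ 2 := by
    intro k
    have : ∀ u v, A u v * g k u * g k v =
        ∑ i, hA.eigenvalues i * ((U u i * g k u) * (U v i * g k v)) := by
      intro u v
      rw [h1, Finset.sum_mul, Finset.sum_mul]
      exact Finset.sum_congr rfl fun i _ => by ring
    simp_rw [this]
    have h3 : ∀ u, ∑ v, ∑ i, hA.eigenvalues i * ((U u i * g k u) * (U v i * g k v)) =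
        ∑ i, hA.eigenvalues i * ((U u i * g k u) * c k i) := by
      intro u
      rw [Finset.sum_comm]
      refine Finset.sum_congr rfl fun i _ => ?_
      rw [hc, ← Finset.mul_sum, ← Finset.mul_sum]
    simp_rw [h3]
    rw [Finset.sum_comm]
    refine Finset.sum_congr rfl fun i _ => ?_
    rw [← Finset.mul_sum, ← Finset.sum_mul, sq]
  have e2 : ∀ k l, ∑ u, g k u * g l u = ∑ i, c k i * c l i := by
    intro k l
    have h3 : ∀ u, g k u * g l u = ∑ v, (if u = v then (1 : ℝ) else 0) * (g k u * g l v) := by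
      intro u
      simp
    have h4 : ∑ u, g k u * g l u =
        ∑ u, ∑ v, ∑ i, (U u i * g k u) * (U v i * g l v) := by
      refine Finset.sum_congr rfl fun u _ => ?_
      rw [h3 u]
      refine Finset.sum_congr rfl fun v _ => ?_
      rw [h2, Finset.sum_mul]
      exact Finset.sum_congr rfl fun i _ => by ring
    rw [h4]
    have h5 : ∀ u, ∑ v, ∑ i, (U u i * g k u) * (U v i * g l v) =
        ∑ i, (U u i * g k u) * c l i := by
      intro u
      rw [Finset.sum_comm]
      refine Finset.sum_congr rfl fun i _ => ?_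
      rw [hc, ← Finset.mul_sum]
    simp_rw [h5]
    rw [Finset.sum_comm]
    refine Finset.sum_congr rfl fun i _ => ?_
    rw [← Finset.sum_mul]
  set p : V → ℝ := fun i => ∑ k, ω k * c k i ^ 2 with hp
  have hp0 : ∀ i, 0 ≤ p i := fun i =>
    Finset.sum_nonneg fun k _ => mul_nonneg (hω k) (sq_nonneg _)
  have e3 : ∑ k, ω k * ∑ u, ∑ v, A u v * g k u * g k v = ∑ i, hA.eigenvalues i * p i := by
    simp_rw [e1, Finset.mul_sum]
    rw [Finset.sum_comm]
    refine Finset.sum_congr rfl fun i _ => ?_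
    rw [hp, Finset.mul_sum]
    exact Finset.sum_congr rfl fun k _ => by ring
  have e4 : ∑ i, p i ^ 2 ≤ ∑ k, ∑ l, ω k * ω l * (∑ u, g k u * g l u) ^ 2 := by
    have h3 : ∑ k, ∑ l, ω k * ω l * (∑ u, g k u * g l u) ^ 2 =
        ∑ i, ∑ j, (∑ k, ω k * (c k i * c k j)) ^ 2 := by
      have h4 : ∀ k l, ω k * ω l * (∑ u, g k u * g l u) ^ 2 =
          ∑ i, ∑ j, (ω k * (c k i * c k j)) * (ω l * (c l i * c l j)) := by
        intro k l
        rw [e2, sq, Finset.sum_mul_sum, Finset.mul_sum]
        refine Finset.sum_congr rfl fun i _ => ?_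
        rw [Finset.mul_sum]
        exact Finset.sum_congr rfl fun j _ => by ring
      simp_rw [h4]
      have h5 : ∀ i j, (∑ k, ω k * (c k i * c k j)) ^ 2 =
          ∑ k, ∑ l, (ω k * (c k i * c k j)) * (ω l * (c l i * c l j)) := by
        intro i j
        rw [sq, Finset.sum_mul_sum]
      simp_rw [h5]
      calc ∑ k, ∑ l, ∑ i, ∑ j, (ω k * (c k i * c k j)) * (ω l * (c l i * c l j))
          = ∑ k, ∑ i, ∑ l, ∑ j, (ω k * (c k i * c k j)) * (ω l * (c l i * c l j)) :=
            Finset.sum_congr rfl fun k _ => Finset.sum_comm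
        _ = ∑ i, ∑ k, ∑ l, ∑ j, (ω k * (c k i * c k j)) * (ω l * (c l i * c l j)) :=
            Finset.sum_comm
        _ = ∑ i, ∑ k, ∑ j, ∑ l, (ω k * (c k i * c k j)) * (ω l * (c l i * c l j)) :=
            Finset.sum_congr rfl fun i _ => Finset.sum_congr rfl fun k _ => Finset.sum_comm
        _ = ∑ i, ∑ j, ∑ k, ∑ l, (ω k * (c k i * c k j)) * (ω l * (c l i * c l j)) :=
            Finset.sum_congr rfl fun i _ => Finset.sum_comm
    rw [h3]
    refine Finset.sum_le_sum fun i _ => ?_
    have h6 : p i ^ 2 = (∑ k, ω k * (c k i * c k i)) ^ 2 := by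
      rw [hp]
      congr 1
      exact Finset.sum_congr rfl fun k _ => by ring
    rw [h6]
    exact Finset.single_le_sum (f := fun j => (∑ k, ω k * (c k i * c k j)) ^ 2)
      (fun j _ => sq_nonneg _) (Finset.mem_univ i)
  have e5 : ∑ i, (2 * (hA.eigenvalues i * p i) - p i ^ 2) ≤
      ∑ i with 0 < hA.eigenvalues i, hA.eigenvalues i ^ 2 := by
    rw [Finset.sum_filter]
    refine Finset.sum_le_sum fun i _ => ?_
    split_ifs with h
    · nlinarith [sq_nonneg (hA.eigenvalues i - p i)]
    · nlinarith [hp0 i, mul_nonneg (neg_nonneg.2 (not_lt.1 h)) (hp0 i), sq_nonneg (p i)]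
  rw [Finset.sum_sub_distrib, ← Finset.mul_sum] at e5
  rw [e3]
  linarith

end Pool.Agent.SqEnergy
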