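import Pool.Agent.SqEnergy.Main

/-!
# The main theorems on the positive square energy
-/

namespace Pool.Agent.SqEnergy

open Finset

open Classical in
/-- degree -/
noncomputable def dg {V : Type*} [Fintype V] (H : SimpleGraph V) (v : V) : ℕ :=
  (univ.filter fun k => H.Adj v k).card

lemma dg_eq {V : Type*} [Fintype V] (H : SimpleGraph V) [DecidableRel H.Adj] (v : V) :
    dg H v = H.degree v := by
  classical
  rw [dg, ← SimpleGraph.card_neighborFinset_eq_degree]
  congr 1
  ext k
  simp

/-- A subgraph with the same truncated degrees, in which each edge has an end of degree at most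
`3`. -/
lemma exists_sub {V : Type*} [Fintype V] (G : SimpleGraph V) : ∃ H : SimpleGraph V, H ≤ G ∧
    (∀ v, min (dg G v) 3 ≤ dg H v) ∧ ∀ u v, H.Adj u v → dg H u ≤ 3 ∨ dg H v ≤ 3 := by
  classical
  set S : Set (SimpleGraph V) := {H | H ≤ G ∧ ∀ v, min (dg G v) 3 ≤ dg H v} with hS
  have hfin : S.Finite := Set.toFinite _
  have hne : S.Nonempty := ⟨G, le_rfl, fun v => min_le_left _ _⟩
  obtain ⟨H, hH⟩ := hfin.exists_minimal hne
  refine ⟨H, hH.1.1, hH.1.2, ?_⟩
  intro u v huv
  by_contra hcon
  push Not at hcon
  obtain ⟨hu, hv⟩ := hcon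
  have hne : u ≠ v := huv.ne
  set H' := H.deleteEdges {s(u, v)} with hH'
  have hadj : ∀ a b, H'.Adj a b ↔ H.Adj a b ∧ ¬ (a = u ∧ b = v) ∧ ¬ (a = v ∧ b = u) := by
    intro a b
    rw [hH', SimpleGraph.deleteEdges_adj, Set.mem_singleton_iff, Sym2.eq_iff, not_or]
  have hle : H' ≤ H := SimpleGraph.deleteEdges_le _
  have hmem : H' ∈ S := by
    refine ⟨hle.trans hH.1.1, fun a => ?_⟩
    by_cases ha : a = u
    · subst ha
      have h1 : (univ.filter fun k => H.Adj a k).erase v ⊆ univ.filter fun k => H'.Adj a k := by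
        intro k hk
        rw [Finset.mem_erase, Finset.mem_filter] at hk
        rw [Finset.mem_filter]
        refine ⟨Finset.mem_univ _, (hadj a k).2 ⟨hk.2.2, fun h => hk.1 h.2, fun h => hne h.1⟩⟩
      have h2 := Finset.card_le_card h1
      rw [Finset.card_erase_of_mem (by simp [huv])] at h2
      have h3 : dg H a - 1 ≤ dg H' a := by
        unfold dg
        convert h2
      omega
    · by_cases hb : a = v
      · subst hb
        have h1 : (univ.filter fun k => H.Adj a k).erase u ⊆
            univ.filter fun k => H'.Adj a k := by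
          intro k hk
          rw [Finset.mem_erase, Finset.mem_filter] at hk
          rw [Finset.mem_filter]
          refine ⟨Finset.mem_univ _, (hadj a k).2 ⟨hk.2.2, fun h => hne h.1.symm,
            fun h => hk.1 h.2⟩⟩
        have h2 := Finset.card_le_card h1
        rw [Finset.card_erase_of_mem (by simp [huv.symm])] at h2
        have h3 : dg H a - 1 ≤ dg H' a := by
          unfold dg
          convert h2
        omega
      · have h1 : (univ.filter fun k => H.Adj a k) ⊆ univ.filter fun k => H'.Adj a k := by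
          intro k hk
          rw [Finset.mem_filter] at hk
          rw [Finset.mem_filter]
          exact ⟨Finset.mem_univ _, (hadj a k).2 ⟨hk.2, fun h => ha h.1, fun h => hb h.1⟩⟩
        have h2 : dg H a ≤ dg H' a := by
          have := Finset.card_le_card h1
          unfold dg
          convert this
        exact (hH.1.2 a).trans h2
  have h3 := hH.2 hmem hle
  have h4 : H'.Adj u v := h3 huv
  exact ((hadj u v).1 h4).2.1 ⟨rfl, rfl⟩

/-- For every subgraph `H` of `G` in which each edge has an end of degree at most `3`, the positive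
square energy of `G` is at least `(2/3) e(H) = (1/3) ∑ deg_H v`. -/
theorem energy_ge_sub {V : Type*} [Fintype V] [DecidableEq V] (G : SimpleGraph V)
    [DecidableRel G.Adj] (H : SimpleGraph V) (hHG : H ≤ G)
    (hH : ∀ u v, H.Adj u v → dg H u ≤ 3 ∨ dg H v ≤ 3) :
    1 / 3 * ∑ v, (dg H v : ℝ) ≤ posSquareEnergy G := by
  classical
  obtain ⟨w, e, x, hw, he⟩ := exists_wt H
  have hdeg : ∀ v, (univ.filter fun k => e v k = 1).card = dg H v := by
    intro v
    unfold dg
    congr 1
    ext k
    rw [Finset.mem_filter, Finset.mem_filter, he]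
    by_cases h : H.Adj v k
    · simp [h]
    · simp [h]
  have hsum : ∑ v, (dg H v : ℝ) = ∑ u, ∑ k, e u k := by
    refine Finset.sum_congr rfl fun v _ => ?_
    rw [he]
    unfold dg
    rw [Finset.card_filter]
    push_cast
    rfl
  rw [hsum]
  refine hw.energy ?_ (G.adjMatrix ℝ) (isHermitian_adj G) ?_
  · intro u v huv
    rw [hdeg, hdeg]
    exact hH u v huv
  · intro u v
    rw [he, SimpleGraph.adjMatrix_apply]
    by_cases h : H.Adj u v
    · simp [h, hHG h]
    · simp only [h, if_false]
      split_ifs <;> norm_num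

/-- `s⁺(G) ≥ (1/3) ∑ min(deg v, 3)`. -/
theorem energy_ge_min {V : Type*} [Fintype V] [DecidableEq V] (G : SimpleGraph V)
    [DecidableRel G.Adj] : 1 / 3 * ∑ v, (min (G.degree v) 3 : ℝ) ≤ posSquareEnergy G := by
  obtain ⟨H, h1, h2, h3⟩ := exists_sub G
  refine le_trans ?_ (energy_ge_sub G H h1 h3)
  refine mul_le_mul_of_nonneg_left (Finset.sum_le_sum fun v _ => ?_) (by norm_num)
  have := h2 v
  rw [dg_eq G] at this
  exact_mod_cast this

/-- Graphs with minimum degree at least `3`. -/
theorem energy_ge_card {V : Type*} [Fintype V] [DecidableEq V] (G : SimpleGraph V)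
    [DecidableRel G.Adj] (h : ∀ v, 3 ≤ G.degree v) : (Fintype.card V : ℝ) ≤ posSquareEnergy G := by
  refine le_trans ?_ (energy_ge_min G)
  have h1 : ∀ v, (min (G.degree v : ℝ) 3) = 3 := by
    intro v
    rw [min_eq_right]
    exact_mod_cast h v
  simp_rw [h1]
  simp
  linarith

end Pool.Agent.SqEnergy
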