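import Mathlib

/-!
# Canonical weights of a graph

For every finite graph there are weights `w ≥ 0` with `w j + w k > 0` on the edges, such that
`δ k = ∑_{j ~ k} 1 / (w j + w k) ^ 2 ≤ 1`, with equality if `w k > 0`: minimise the function
`∑ w k + ∑_{jk} 1 / (w j + w k)`.
-/

namespace Pool.Agent.SqEnergy

open Finset Filter Topology

open Classical in
/-- The function to be minimised. -/
noncomputable def FF {V : Type*} [Fintype V] (H : SimpleGraph V) (w : V → ℝ) : ℝ :=
  ∑ k, w k + 1 / 2 * ∑ j, ∑ k, if H.Adj j k then 1 / (w j + w k) else 0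

open Classical in
/-- difference quotient -/
noncomputable def psi {V : Type*} [Fintype V] (H : SimpleGraph V) (w : V → ℝ) (k : V) (h : ℝ) : ℝ :=
  ∑ j, if H.Adj j k then 1 / ((w j + w k) * (w j + w k + h)) else 0

open Classical in
lemma FF_add {V : Type*} [Fintype V] (H : SimpleGraph V) (w : V → ℝ) (k : V) (h : ℝ)
    (hpos : ∀ j, H.Adj j k → 0 < w j + w k) (hpos' : ∀ j, H.Adj j k → 0 < w j + w k + h) :
    FF H (Function.update w k (w k + h)) - FF H w = h * (1 - psi H w k h) := by
  set w' := Function.update w k (w k + h) with hw'
  have hk : w' k = w k + h := by simp [hw']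
  have hne : ∀ j, j ≠ k → w' j = w j := fun j hj => by simp [hw', hj]
  have h1 : ∑ i, w' i - ∑ i, w i = h := by
    rw [← Finset.sum_sub_distrib, Finset.sum_eq_single k]
    · rw [hk]; ring
    · intro j _ hj
      rw [hne j hj]; ring
    · simp
  have h2 : ∑ j, ∑ i, (if H.Adj j i then 1 / (w' j + w' i) else 0) -
      ∑ j, ∑ i, (if H.Adj j i then 1 / (w j + w i) else 0) = -2 * h * psi H w k h := by
    have key : ∀ j i, (if H.Adj j i then 1 / (w' j + w' i) else 0) -
        (if H.Adj j i then 1 / (w j + w i) else 0) =
        -h * ((if i = k then (if H.Adj j k then 1 / ((w j + w k) * (w j + w k + h)) else 0)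
          else 0) +
        (if j = k then (if H.Adj i k then 1 / ((w i + w k) * (w i + w k + h)) else 0)
          else 0)) := by
      intro j i
      by_cases hji : H.Adj j i
      · have hn : j ≠ i := hji.ne
        by_cases hi : i = k
        · subst hi
          have hj : j ≠ i := hn
          have p1 := hpos j hji
          have p2 := hpos' j hji
          rw [if_pos hji, if_pos hji, if_pos rfl, if_pos hji, if_neg hj, hk, hne j hj,
            ← add_assoc]
          have p3 : w j + w i + h ≠ 0 := p2.ne'
          have p4 : w j + w i ≠ 0 := p1.ne'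
          rw [div_sub_div _ _ p3 p4, add_zero, mul_one_div, div_eq_div_iff (mul_ne_zero p3 p4)
            (mul_ne_zero p4 p3)]
          ring
        · by_cases hj : j = k
          · subst hj
            have p1 := hpos i hji.symm
            have p2 := hpos' i hji.symm
            rw [if_pos hji, if_pos hji, if_neg hi, if_pos rfl, if_pos hji.symm, hk, hne i hi]
            have p3 : w j + h + w i ≠ 0 := by
              intro h0
              linarith
            have p4 : w j + w i ≠ 0 := by
              intro h0
              linarith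
            field_simp
            ring
          · rw [if_pos hji, if_pos hji, if_neg hi, if_neg hj, hne i hi, hne j hj]
            ring
      · rw [if_neg hji, if_neg hji]
        by_cases hi : i = k
        · subst hi
          by_cases hj : j = i
          · subst hj
            simp
          · simp [hji, hj]
        · by_cases hj : j = k
          · subst hj
            have : ¬ H.Adj i j := fun h0 => hji h0.symm
            simp [this, hi]
          · simp [hi, hj]
    rw [← Finset.sum_sub_distrib]
    simp_rw [← Finset.sum_sub_distrib, key, ← Finset.mul_sum, Finset.sum_add_distrib]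
    simp only [Finset.sum_ite_eq', Finset.mem_univ, if_true]
    have h3 : ∑ j, ∑ i, (if j = k then (if H.Adj i k then 1 / ((w i + w k) * (w i + w k + h))
        else 0) else 0) = psi H w k h := by
      rw [Finset.sum_comm]
      simp only [Finset.sum_ite_eq', Finset.mem_univ, if_true]
      rfl
    rw [h3]
    unfold psi
    ring
  unfold FF
  linear_combination h1 + 1 / 2 * h2

open Classical in
theorem exists_weights {V : Type*} [Fintype V] (H : SimpleGraph V) :
    ∃ w : V → ℝ, (∀ k, 0 ≤ w k) ∧ (∀ j k, H.Adj j k → 0 < w j + w k) ∧
      (∀ k, (∑ j, if H.Adj j k then 1 / (w j + w k) ^ 2 else 0) ≤ 1) ∧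
      ∀ k, w k * (∑ j, if H.Adj j k then 1 / (w j + w k) ^ 2 else 0) = w k := by
  set M : ℝ := FF H (fun _ => 1) + 1 with hM
  have hF1 : 0 ≤ FF H (fun _ => 1) := by
    unfold FF
    refine add_nonneg (Finset.sum_nonneg fun _ _ => zero_le_one) ?_
    refine mul_nonneg (by norm_num) (Finset.sum_nonneg fun j _ => Finset.sum_nonneg fun k _ => ?_)
    split_ifs
    · norm_num
    · exact le_rfl
  have hM1 : 1 ≤ M := by linarith
  set ε : ℝ := 1 / (2 * M) with hε
  have hε0 : 0 < ε := by positivity
  have hε1 : ε ≤ 1 := by
    rw [hε, div_le_one (by positivity)]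
    linarith
  set K : Set (V → ℝ) := Set.Icc (fun _ => 0) (fun _ => M) ∩
    {w | ∀ j k, H.Adj j k → ε ≤ w j + w k} with hK
  have hKc : IsCompact K := by
    refine IsCompact.inter_right isCompact_Icc ?_
    simp only [Set.ofPred_forall]
    refine isClosed_iInter fun j => isClosed_iInter fun k => isClosed_iInter fun _ => ?_
    exact isClosed_le continuous_const ((continuous_apply j).add (continuous_apply k))
  have h1K : (fun _ => (1 : ℝ)) ∈ K := by
    refine ⟨⟨fun _ => zero_le_one, fun _ => hM1⟩, fun j k _ => ?_⟩
    show ε ≤ 1 + 1
    linarith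
  have hcont : ContinuousOn (FF H) K := by
    unfold FF
    refine ContinuousOn.add ?_ (ContinuousOn.mul continuousOn_const ?_)
    · exact (continuous_finsetSum _ fun k _ => continuous_apply k).continuousOn
    · refine continuousOn_finsetSum _ fun j _ => continuousOn_finsetSum _ fun k _ => ?_
      by_cases hjk : H.Adj j k
      · simp only [if_pos hjk]
        refine ContinuousOn.div continuousOn_const
          ((continuous_apply j).add (continuous_apply k)).continuousOn ?_
        intro w hw
        have := hw.2 j k hjk
        exact (lt_of_lt_of_le hε0 this).ne'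
      · simp only [if_neg hjk]
        exact continuousOn_const
  obtain ⟨w, hwK, hmin⟩ := hKc.exists_isMinOn ⟨_, h1K⟩ hcont
  have hw0 : ∀ k, 0 ≤ w k := fun k => hwK.1.1 k
  have hwF : FF H w < M := by
    have := hmin h1K
    simp only [Set.mem_ofPred_eq] at this
    linarith
  have hpos : ∀ j k, H.Adj j k → 0 < w j + w k := fun j k h => lt_of_lt_of_le hε0 (hwK.2 j k h)
  have hterm : ∀ j k, 0 ≤ (if H.Adj j k then 1 / (w j + w k) else 0) := by
    intro j k
    split_ifs with h
    · exact (div_pos one_pos (hpos j k h)).le
    · exact le_rfl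
  have hwM : ∀ k, w k < M := by
    intro k
    refine lt_of_le_of_lt ?_ hwF
    unfold FF
    have h1 : w k ≤ ∑ i, w i := Finset.single_le_sum (fun i _ => hw0 i) (Finset.mem_univ k)
    have h2 : 0 ≤ 1 / 2 * ∑ j, ∑ k, (if H.Adj j k then 1 / (w j + w k) else 0) :=
      mul_nonneg (by norm_num) (Finset.sum_nonneg fun j _ => Finset.sum_nonneg fun k _ => hterm j k)
    linarith
  have hwε : ∀ j k, H.Adj j k → ε < w j + w k := by
    intro j k hjk
    have h1 : 1 / 2 * (1 / (w j + w k)) ≤ FF H w := by
      unfold FF
      have h2 : 1 / (w j + w k) ≤ ∑ j, ∑ k, (if H.Adj j k then 1 / (w j + w k) else 0) := by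
        calc 1 / (w j + w k) = (if H.Adj j k then 1 / (w j + w k) else 0) := by rw [if_pos hjk]
          _ ≤ ∑ k, (if H.Adj j k then 1 / (w j + w k) else 0) :=
            Finset.single_le_sum (f := fun k => (if H.Adj j k then 1 / (w j + w k) else 0))
              (fun i _ => hterm j i) (Finset.mem_univ k)
          _ ≤ _ := Finset.single_le_sum
            (f := fun j => ∑ k, (if H.Adj j k then 1 / (w j + w k) else 0))
              (fun i _ => Finset.sum_nonneg fun k _ => hterm i k) (Finset.mem_univ j)
      have h3 : 0 ≤ ∑ i, w i := Finset.sum_nonneg fun i _ => hw0 i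
      linarith
    have h4 := hpos j k hjk
    have h5 : 1 / 2 * (1 / (w j + w k)) < M := lt_of_le_of_lt h1 hwF
    rw [hε, div_lt_iff₀ (by positivity)]
    have h6 : 1 / 2 * (1 / (w j + w k)) = 1 / (2 * (w j + w k)) := by
      field_simp
    rw [h6, div_lt_iff₀ (by positivity)] at h5
    linarith
  -- small perturbations
  have hev : ∀ k, ∀ᶠ h in 𝓝 (0 : ℝ), w k + h < M ∧ ∀ j, H.Adj j k → ε < w j + w k + h := by
    intro k
    refine Filter.Eventually.and ?_ ?_
    · have : Tendsto (fun h : ℝ => w k + h) (𝓝 0) (𝓝 (w k + 0)) :=
        (continuous_const.add continuous_id).tendsto 0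
      rw [add_zero] at this
      exact this.eventually (gt_mem_nhds (hwM k))
    · rw [Filter.eventually_all]
      intro j
      by_cases hjk : H.Adj j k
      · have : Tendsto (fun h : ℝ => w j + w k + h) (𝓝 0) (𝓝 (w j + w k + 0)) :=
          (continuous_const.add continuous_id).tendsto 0
        rw [add_zero] at this
        filter_upwards [this.eventually (lt_mem_nhds (hwε j k hjk))] with h hh _
        exact hh
      · exact Filter.Eventually.of_forall fun h h' => absurd h' hjk
  have hstep : ∀ k, ∀ᶠ h in 𝓝 (0 : ℝ), 0 ≤ w k + h → 0 ≤ h * (1 - psi H w k h) := by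
    intro k
    filter_upwards [hev k] with h hh hk0
    rw [← FF_add H w k h (fun j hj => hpos j k hj)
      (fun j hj => lt_trans hε0 (hh.2 j hj))]
    have : Function.update w k (w k + h) ∈ K := by
      refine ⟨⟨?_, ?_⟩, ?_⟩
      · intro i
        by_cases hi : i = k
        · subst hi; simpa using hk0
        · simpa [hi] using hw0 i
      · intro i
        by_cases hi : i = k
        · subst hi; simpa using hh.1.le
        · simpa [hi] using (hwM i).le
      · intro i j hij
        by_cases hi : i = k
        · subst hi
          have hj : j ≠ i := hij.ne'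
          have := hh.2 j hij.symm
          simp [hj]
          linarith
        · by_cases hj : j = k
          · subst hj
            have := hh.2 i hij
            simp [hi]
            linarith
          · simpa [hi, hj] using (hwε i j hij).le
    have := hmin this
    simp only [Set.mem_ofPred_eq] at this
    linarith
  have hpsi : ∀ k, Tendsto (psi H w k) (𝓝 0)
      (𝓝 (∑ j, if H.Adj j k then 1 / (w j + w k) ^ 2 else 0)) := by
    intro k
    unfold psi
    refine tendsto_finsetSum _ fun j _ => ?_
    by_cases hjk : H.Adj j k
    · simp only [if_pos hjk]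
      have hp := hpos j k hjk
      have : ContinuousAt (fun h : ℝ => 1 / ((w j + w k) * (w j + w k + h))) 0 := by
        refine ContinuousAt.div continuousAt_const (by fun_prop) ?_
        simp only [add_zero]
        positivity
      have h2 := this.tendsto
      simp only [add_zero] at h2
      rw [sq]
      exact h2
    · simp only [if_neg hjk]
      exact tendsto_const_nhds
  have hle : ∀ k, (∑ j, if H.Adj j k then 1 / (w j + w k) ^ 2 else 0) ≤ 1 := by
    intro k
    refine le_of_tendsto ((hpsi k).mono_left (nhdsWithin_le_nhds (s := Set.Ioi 0))) ?_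
    filter_upwards [(hstep k).filter_mono (nhdsWithin_le_nhds (s := Set.Ioi 0)),
      self_mem_nhdsWithin] with h hh h0
    have h1 : (0 : ℝ) < h := h0
    have h2 := hh (by linarith [hw0 k])
    by_contra h3
    push Not at h3
    nlinarith
  refine ⟨w, hw0, hpos, hle, fun k => ?_⟩
  rcases eq_or_lt_of_le (hw0 k) with h0 | h0
  · rw [← h0]; simp
  · have hge : 1 ≤ ∑ j, (if H.Adj j k then 1 / (w j + w k) ^ 2 else 0) := by
      refine ge_of_tendsto ((hpsi k).mono_left (nhdsWithin_le_nhds (s := Set.Iio 0))) ?_
      have hsmall : ∀ᶠ h in 𝓝 (0 : ℝ), 0 < w k + h := by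
        have : Tendsto (fun h : ℝ => w k + h) (𝓝 0) (𝓝 (w k + 0)) :=
          (continuous_const.add continuous_id).tendsto 0
        rw [add_zero] at this
        exact this.eventually (lt_mem_nhds h0)
      filter_upwards [(hstep k).filter_mono (nhdsWithin_le_nhds (s := Set.Iio 0)),
        hsmall.filter_mono (nhdsWithin_le_nhds (s := Set.Iio 0)),
        self_mem_nhdsWithin] with h hh h1 h2
      have h3 : h < 0 := h2
      have h4 := hh h1.le
      by_contra h5
      push Not at h5
      nlinarith
    have := le_antisymm (hle k) hge
    rw [this, mul_one]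

end Pool.Agent.SqEnergy
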