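import Pool.Agent.SqEnergy.Cert
import Pool.Agent.SqEnergy.Weights

/-!
# Lower bound for the positive square energy

`s⁺(G) ≥ (2/3) e(H)` for every subgraph `H` of `G` in which no two vertices of degree at least `4`
are adjacent.
-/

namespace Pool.Agent.SqEnergy

open Finset

/-! ### The local inequality -/

lemma local3 {a b c : ℝ} (ha : 0 ≤ a) (ha1 : a ≤ 1) (hb : 0 ≤ b) (hb1 : b ≤ 1) (hc : 0 ≤ c)
    (hc1 : c ≤ 1) {x y z : ℝ} (hx : x = 0 ∨ x = 1) (hy : y = 0 ∨ y = 1) (hz : z = 0 ∨ z = 1) :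
    ((1 - a) + ((1 - b) + (1 - c))) ^ 2 - 2 * ((1 - a) + ((1 - b) + (1 - c))) -
      ((1 - a) ^ 2 + ((1 - b) ^ 2 + (1 - c) ^ 2)) +
      (x * ((a ^ 2 + (b ^ 2 + c ^ 2)) - 2 * a - a ^ 2) +
        (y * ((a ^ 2 + (b ^ 2 + c ^ 2)) - 2 * b - b ^ 2) +
        z * ((a ^ 2 + (b ^ 2 + c ^ 2)) - 2 * c - c ^ 2))) ≤ 0 := by
  have h1 : 0 ≤ (1 - a) * a := mul_nonneg (by linarith) ha
  have h2 : 0 ≤ (1 - b) * b := mul_nonneg (by linarith) hb
  have h3 : 0 ≤ (1 - c) * c := mul_nonneg (by linarith) hc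
  have h4 : 0 ≤ a * (1 - b) := mul_nonneg ha (by linarith)
  have h5 : 0 ≤ b * (1 - a) := mul_nonneg hb (by linarith)
  have h6 : 0 ≤ a * (1 - c) := mul_nonneg ha (by linarith)
  have h7 : 0 ≤ c * (1 - a) := mul_nonneg hc (by linarith)
  have h8 : 0 ≤ b * (1 - c) := mul_nonneg hb (by linarith)
  have h9 : 0 ≤ c * (1 - b) := mul_nonneg hc (by linarith)
  rcases hx with rfl | rfl <;> rcases hy with rfl | rfl <;> rcases hz with rfl | rfl <;>
    nlinarith

lemma local2 {a b : ℝ} (ha : 0 ≤ a) (ha1 : a ≤ 1) (hb : 0 ≤ b) (hb1 : b ≤ 1)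
    {x y : ℝ} (hx : x = 0 ∨ x = 1) (hy : y = 0 ∨ y = 1) :
    ((1 - a) + (1 - b)) ^ 2 - 2 * ((1 - a) + (1 - b)) -
      ((1 - a) ^ 2 + (1 - b) ^ 2) +
      (x * ((a ^ 2 + b ^ 2) - 2 * a - a ^ 2) + y * ((a ^ 2 + b ^ 2) - 2 * b - b ^ 2)) ≤ 0 := by
  have h1 : 0 ≤ (1 - a) * a := mul_nonneg (by linarith) ha
  have h2 : 0 ≤ (1 - b) * b := mul_nonneg (by linarith) hb
  have h4 : 0 ≤ a * (1 - b) := mul_nonneg ha (by linarith)
  have h5 : 0 ≤ b * (1 - a) := mul_nonneg hb (by linarith)
  rcases hx with rfl | rfl <;> rcases hy with rfl | rfl <;> nlinarith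

lemma local1 {a : ℝ} (ha1 : a ≤ 1) {x : ℝ} (hx : x = 0 ∨ x = 1) :
    (1 - a) ^ 2 - 2 * (1 - a) - (1 - a) ^ 2 + x * (a ^ 2 - 2 * a - a ^ 2) ≤ 0 := by
  rcases hx with rfl | rfl <;> nlinarith

lemma local_ineq {V : Type*} (N : Finset V) (hN : N.card ≤ 3) (r η : V → ℝ)
    (hr : ∀ k ∈ N, 0 ≤ r k ∧ r k ≤ 1) (hη : ∀ k, η k = 0 ∨ η k = 1) :
    (∑ k ∈ N, (1 - r k)) ^ 2 - 2 * (∑ k ∈ N, (1 - r k)) - (∑ k ∈ N, (1 - r k) ^ 2) +
      ∑ k ∈ N, η k * ((∑ j ∈ N, r j ^ 2) - 2 * r k - r k ^ 2) ≤ 0 := by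
  classical
  have h : N.card = 0 ∨ N.card = 1 ∨ N.card = 2 ∨ N.card = 3 := by omega
  rcases h with h | h | h | h
  · rw [Finset.card_eq_zero] at h
    subst h
    simp
  · obtain ⟨a, rfl⟩ := Finset.card_eq_one.1 h
    have ha := hr a (by simp)
    simp only [Finset.sum_singleton]
    exact local1 ha.2 (hη a)
  · obtain ⟨a, b, hab, rfl⟩ := Finset.card_eq_two.1 h
    have ha := hr a (by simp)
    have hb := hr b (by simp)
    simp only [Finset.sum_pair hab]
    exact local2 ha.1 ha.2 hb.1 hb.2 (hη a) (hη b)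
  · obtain ⟨a, b, c, hab, hac, hbc, rfl⟩ := Finset.card_eq_three.1 h
    have ha := hr a (by simp)
    have hb := hr b (by simp)
    have hc := hr c (by simp)
    have hn : a ∉ ({b, c} : Finset V) := by simp [hab, hac]
    simp only [Finset.sum_insert hn, Finset.sum_pair hbc]
    exact local3 ha.1 ha.2 hb.1 hb.2 hc.1 hc.2 (hη a) (hη b) (hη c)

/-! ### The weighted computation -/

/-- The data of canonical weights on the graph `H`. -/
structure Wt {V : Type*} [Fintype V] (H : SimpleGraph V) (w : V → ℝ) (e x : V → V → ℝ) :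
    Prop where
  w0 : ∀ k, 0 ≤ w k
  x0 : ∀ j k, 0 ≤ x j k
  xs : ∀ j k, x j k = x k j
  e1 : ∀ j k, H.Adj j k → e j k = 1
  e0 : ∀ j k, ¬ H.Adj j k → e j k = 0
  xz : ∀ j k, ¬ H.Adj j k → x j k = 0
  xe : ∀ j k, (w j + w k) * x j k = e j k
  dle : ∀ k, ∑ j, x j k ^ 2 ≤ 1
  deq : ∀ k, w k * ∑ j, x j k ^ 2 = w k

open Classical in
lemma exists_wt {V : Type*} [Fintype V] (H : SimpleGraph V) : ∃ (w : V → ℝ) (e x : V → V → ℝ),
    Wt H w e x ∧ e = fun j k => if H.Adj j k then 1 else 0 := by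
  obtain ⟨w, h0, h1, h2, h3⟩ := exists_weights H
  have key : ∀ k, ∑ j, (if H.Adj j k then 1 / (w j + w k) else 0) ^ 2 =
      ∑ j, if H.Adj j k then 1 / (w j + w k) ^ 2 else 0 := by
    intro k
    refine Finset.sum_congr rfl fun j _ => ?_
    split_ifs
    · rw [one_div_pow]
    · simp
  refine ⟨w, fun j k => if H.Adj j k then 1 else 0,
    fun j k => if H.Adj j k then 1 / (w j + w k) else 0, ?_, rfl⟩
  refine ⟨h0, ?_, ?_, ?_, ?_, ?_, ?_, ?_, ?_⟩
  · intro j k
    split_ifs with h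
    · exact (div_pos one_pos (h1 j k h)).le
    · exact le_rfl
  · intro j k
    by_cases h : H.Adj j k
    · rw [if_pos h, if_pos h.symm, add_comm]
    · rw [if_neg h, if_neg (fun h' => h h'.symm)]
  · intro j k h
    simp [h]
  · intro j k h
    simp [h]
  · intro j k h
    simp [h]
  · intro j k
    split_ifs with h
    · exact mul_one_div_cancel (h1 j k h).ne'
    · simp
  · intro k
    rw [key]
    exact h2 k
  · intro k
    rw [key]
    exact h3 k

section Comp

variable {V : Type*} [Fintype V] {H : SimpleGraph V} {w : V → ℝ} {e x : V → V → ℝ}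

lemma Wt.dle' (h : Wt H w e x) (k : V) : ∑ j, x k j ^ 2 ≤ 1 := by
  have := h.dle k
  simp_rw [h.xs _ k] at this
  exact this

lemma Wt.sq_eq (h : Wt H w e x) (k : V) : w k ^ 2 = ∑ j, (w k * x k j) ^ 2 := by
  have h1 := h.deq k
  simp_rw [h.xs _ k] at h1
  simp_rw [mul_pow, ← Finset.mul_sum]
  rw [sq, mul_assoc, h1]

lemma Wt.es (h : Wt H w e x) (j k : V) : e j k = e k j := by
  rw [← h.xe, ← h.xe, h.xs j k, add_comm]

lemma Wt.ex (h : Wt H w e x) (j k : V) : e j k * x j k = x j k := by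
  by_cases h1 : H.Adj j k
  · rw [h.e1 _ _ h1, one_mul]
  · rw [h.xz _ _ h1, mul_zero]

lemma Wt.e_nonneg (h : Wt H w e x) (j k : V) : 0 ≤ e j k := by
  rw [← h.xe]
  exact mul_nonneg (add_nonneg (h.w0 j) (h.w0 k)) (h.x0 j k)

/-- `∑ Q_u ^ 2 ≤ ∑ w_k ^ 2 + 2 m`. -/
lemma Wt.star (h : Wt H w e x)
    (hH : ∀ u v, H.Adj u v → (univ.filter fun k => e u k = 1).card ≤ 3 ∨
      (univ.filter fun k => e v k = 1).card ≤ 3) :
    ∑ u, (∑ k, w k * x u k) ^ 2 ≤ ∑ k, w k ^ 2 + ∑ u, ∑ k, e u k := by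
  classical
  set D : V → ℕ := fun v => (univ.filter fun k => e v k = 1).card with hD
  set η : V → ℝ := fun v => if D v ≤ 3 then 0 else 1 with hη
  have hη01 : ∀ v, η v = 0 ∨ η v = 1 := by
    intro v
    rw [hη]
    dsimp only
    split_ifs
    · left; rfl
    · right; rfl
  set Q : V → ℝ := fun u => ∑ k, w k * x u k with hQ
  set r : V → V → ℝ := fun k j => w k * x k j with hr
  set Z : V → V → ℝ := fun k u => (∑ j, r k j ^ 2) - 2 * r k u - r k u ^ 2 with hZ
  set a : V → ℝ := fun u => Q u ^ 2 - 2 * Q u - ∑ k, (w k * x u k) ^ 2 with ha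
  -- reformulation
  have f1 : ∑ k, w k ^ 2 = ∑ u, ∑ k, (w k * x u k) ^ 2 := by
    rw [Finset.sum_comm]
    refine Finset.sum_congr rfl fun k _ => ?_
    rw [h.sq_eq k]
    exact Finset.sum_congr rfl fun j _ => by rw [h.xs k j]
  have f2 : ∑ u, ∑ k, e u k = 2 * ∑ u, Q u := by
    have g1 : ∑ u, ∑ k, e u k = ∑ u, ∑ k, w u * x u k + ∑ u, ∑ k, w k * x u k := by
      rw [← Finset.sum_add_distrib]
      refine Finset.sum_congr rfl fun u _ => ?_
      rw [← Finset.sum_add_distrib]
      refine Finset.sum_congr rfl fun k _ => ?_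
      rw [← h.xe]
      ring
    have g2 : ∑ u, ∑ k, w u * x u k = ∑ u, ∑ k, w k * x u k := by
      rw [Finset.sum_comm]
      exact Finset.sum_congr rfl fun u _ => Finset.sum_congr rfl fun k _ => by rw [h.xs k u]
    rw [g1, g2]
    ring
  suffices hs : ∑ u, a u ≤ 0 by
    have g3 : ∑ u, a u = ∑ u, Q u ^ 2 - 2 * ∑ u, Q u - ∑ u, ∑ k, (w k * x u k) ^ 2 := by
      rw [ha, Finset.sum_sub_distrib, Finset.sum_sub_distrib, ← Finset.mul_sum]
    rw [f1, f2]
    linarith
  -- hubs
  have f3 : ∀ u, a u ≤ ∑ k, e u k * Z k u := by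
    intro u
    have g1 : Q u ^ 2 ≤ ∑ k, e u k * w k ^ 2 := by
      have g2 : Q u = ∑ k, (e u k * w k) * x u k := by
        rw [hQ]
        refine Finset.sum_congr rfl fun k _ => ?_
        calc w k * x u k = w k * (e u k * x u k) := by rw [h.ex]
          _ = (e u k * w k) * x u k := by ring
      rw [g2]
      refine (Finset.sum_mul_sq_le_sq_mul_sq _ _ _).trans ?_
      have g3 : ∑ k, (e u k * w k) ^ 2 = ∑ k, e u k * w k ^ 2 := by
        refine Finset.sum_congr rfl fun k _ => ?_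
        by_cases h1 : H.Adj u k
        · rw [h.e1 _ _ h1]; ring
        · rw [h.e0 _ _ h1]; ring
      rw [g3]
      have g4 : 0 ≤ ∑ k, e u k * w k ^ 2 :=
        Finset.sum_nonneg fun k _ => mul_nonneg (h.e_nonneg u k) (sq_nonneg _)
      calc (∑ k, e u k * w k ^ 2) * ∑ k, x u k ^ 2 ≤ (∑ k, e u k * w k ^ 2) * 1 :=
            mul_le_mul_of_nonneg_left (h.dle' u) g4
        _ = _ := mul_one _
    have g5 : ∑ k, e u k * Z k u = ∑ k, e u k * w k ^ 2 - 2 * Q u -
        ∑ k, (w k * x u k) ^ 2 := by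
      rw [hQ]
      dsimp only
      rw [Finset.mul_sum, ← Finset.sum_sub_distrib, ← Finset.sum_sub_distrib]
      refine Finset.sum_congr rfl fun k _ => ?_
      rw [hZ, hr]
      dsimp only
      rw [← h.sq_eq k, h.xs k u]
      have g6 := h.ex u k
      have g7 : e u k * (2 * (w k * x u k)) = 2 * (w k * x u k) := by
        calc e u k * (2 * (w k * x u k)) = 2 * (w k * (e u k * x u k)) := by ring
          _ = _ := by rw [g6]
      have g8 : e u k * (w k * x u k) ^ 2 = (w k * x u k) ^ 2 := by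
        calc e u k * (w k * x u k) ^ 2 = w k ^ 2 * (e u k * x u k) * x u k := by ring
          _ = _ := by rw [g6]; ring
      linear_combination (-1 : ℝ) * g7 - g8
    rw [g5, ha]
    linarith
  -- redistribution
  have f4 : ∑ u, a u ≤ ∑ u, (1 - η u) * a u + ∑ u, η u * ∑ k, e u k * Z k u := by
    rw [← Finset.sum_add_distrib]
    refine Finset.sum_le_sum fun u _ => ?_
    rcases hη01 u with h1 | h1
    · rw [h1]; linarith
    · rw [h1]; linarith [f3 u]
  have f5 : ∑ u, η u * ∑ k, e u k * Z k u =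
      ∑ k, (1 - η k) * ∑ u, η u * (e k u * Z k u) := by
    simp_rw [Finset.mul_sum]
    rw [Finset.sum_comm]
    refine Finset.sum_congr rfl fun k _ => Finset.sum_congr rfl fun u _ => ?_
    by_cases h1 : H.Adj u k
    · have h2 : η u = 0 ∨ η k = 0 := by
        rcases hH u k h1 with h3 | h3
        · left; rw [hη]; dsimp only; rw [if_pos h3]
        · right; rw [hη]; dsimp only; rw [if_pos h3]
      rw [h.es k u]
      rcases h2 with h2 | h2
      · rw [h2]; ring
      · rw [h2]; ring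
    · rw [h.es k u, h.e0 u k h1]; ring
  rw [f5, ← Finset.sum_add_distrib] at f4
  refine f4.trans (Finset.sum_nonpos fun k _ => ?_)
  rcases hη01 k with h1 | h1
  swap
  · rw [h1]; simp
  rw [h1, sub_zero, one_mul, one_mul]
  have hcard : D k ≤ 3 := by
    by_contra h2
    rw [hη] at h1
    dsimp only at h1
    rw [if_neg h2] at h1
    exact one_ne_zero h1
  set N : Finset V := univ.filter fun j => e k j = 1 with hN
  have hNadj : ∀ j, j ∈ N ↔ H.Adj k j := by
    intro j
    rw [hN, Finset.mem_filter]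
    constructor
    · rintro ⟨_, h2⟩
      by_contra h3
      rw [h.e0 _ _ h3] at h2
      exact zero_ne_one h2
    · intro h2
      exact ⟨Finset.mem_univ _, h.e1 _ _ h2⟩
  have hsum : ∀ f : V → ℝ, (∀ j, ¬ H.Adj k j → f j = 0) → ∑ j, f j = ∑ j ∈ N, f j := by
    intro f hf
    symm
    refine Finset.sum_subset (Finset.subset_univ _) fun j _ hj => ?_
    exact hf j (fun h2 => hj ((hNadj j).2 h2))
  have hq : ∀ j ∈ N, w j * x k j = 1 - r k j := by
    intro j hj
    have h2 := (hNadj j).1 hj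
    have h3 := h.xe k j
    rw [h.e1 _ _ h2] at h3
    rw [hr]
    dsimp only
    linarith
  have hrr : ∀ j ∈ N, 0 ≤ r k j ∧ r k j ≤ 1 := by
    intro j hj
    have h2 : 0 ≤ r k j := mul_nonneg (h.w0 k) (h.x0 k j)
    have h3 := hq j hj
    have h4 : 0 ≤ w j * x k j := mul_nonneg (h.w0 j) (h.x0 k j)
    exact ⟨h2, by linarith⟩
  have main := local_ineq N hcard (fun j => r k j) η hrr hη01
  have e1 : Q k = ∑ j ∈ N, (1 - r k j) := by
    rw [hQ]
    dsimp only
    rw [hsum _ (fun j hj => by rw [h.xz _ _ hj, mul_zero])]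
    exact Finset.sum_congr rfl hq
  have e2 : ∑ j, (w j * x k j) ^ 2 = ∑ j ∈ N, (1 - r k j) ^ 2 := by
    rw [hsum _ (fun j hj => by rw [h.xz _ _ hj, mul_zero]; ring)]
    exact Finset.sum_congr rfl fun j hj => by rw [hq j hj]
  have e3 : ∑ j, r k j ^ 2 = ∑ j ∈ N, r k j ^ 2 := by
    refine hsum _ (fun j hj => ?_)
    rw [hr]
    dsimp only
    rw [h.xz _ _ hj]; ring
  have e4 : ∑ u, η u * (e k u * Z k u) =
      ∑ u ∈ N, η u * ((∑ j ∈ N, r k j ^ 2) - 2 * r k u - r k u ^ 2) := by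
    rw [hsum _ (fun j hj => by rw [h.e0 _ _ hj]; ring)]
    refine Finset.sum_congr rfl fun u hu => ?_
    rw [h.e1 _ _ ((hNadj u).1 hu), hZ]
    dsimp only
    rw [e3, one_mul]
  rw [ha]
  dsimp only
  rw [e1, e2, e4]
  exact main

lemma Wt.xkk (h : Wt H w e x) (k : V) : x k k = 0 := h.xz _ _ (H.irrefl)

/-- The certificate for the canonical weights. -/
theorem Wt.energy [DecidableEq V] (h : Wt H w e x)
    (hH : ∀ u v, H.Adj u v → (univ.filter fun k => e u k = 1).card ≤ 3 ∨
      (univ.filter fun k => e v k = 1).card ≤ 3)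
    (A : Matrix V V ℝ) (hA : A.IsHermitian) (hAe : ∀ u v, e u v ≤ A u v) :
    1 / 3 * ∑ u, ∑ k, e u k ≤ ∑ i with 0 < hA.eigenvalues i, hA.eigenvalues i ^ 2 := by
  set g : V → V → ℝ := fun k u => (if u = k then 1 else 0) + x k u with hg
  have hg0 : ∀ k u, 0 ≤ g k u := by
    intro k u
    rw [hg]
    dsimp only
    refine add_nonneg ?_ (h.x0 k u)
    split_ifs
    · exact zero_le_one
    · exact le_rfl
  set ω : V → ℝ := fun k => w k / 3 with hω
  have hω0 : ∀ k, 0 ≤ ω k := fun k => div_nonneg (h.w0 k) (by norm_num)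
  refine le_trans ?_ (cert A hA ω hω0 g)
  set σ : V → V → ℝ := fun k l => ∑ u, x k u * x l u with hσ
  set T2 : ℝ := ∑ k, ∑ l, w k * w l * (x k l * σ k l) with hT2
  set N2 : ℝ := ∑ k, w k ^ 2 with hN2
  set E2 : ℝ := ∑ k, ∑ l, w k * w l * x k l ^ 2 with hE2
  set m2 : ℝ := ∑ u, ∑ k, e u k with hm2
  -- symmetric sums
  have s1 : ∑ k, ∑ u, w k * x k u = m2 / 2 := by
    have g1 : m2 = ∑ u, ∑ k, w u * x u k + ∑ u, ∑ k, w k * x u k := by
      rw [hm2, ← Finset.sum_add_distrib]
      refine Finset.sum_congr rfl fun u _ => ?_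
      rw [← Finset.sum_add_distrib]
      refine Finset.sum_congr rfl fun k _ => ?_
      rw [← h.xe]
      ring
    have g2 : ∑ u, ∑ k, w k * x u k = ∑ u, ∑ k, w u * x u k := by
      rw [Finset.sum_comm]
      exact Finset.sum_congr rfl fun u _ => Finset.sum_congr rfl fun k _ => by rw [h.xs k u]
    rw [g2] at g1
    linarith
  have s2 : N2 + E2 = m2 / 2 := by
    have g1 : m2 = ∑ u, ∑ k, (w u ^ 2 * x u k ^ 2 + w k ^ 2 * x u k ^ 2 +
        2 * (w u * w k * x u k ^ 2)) := by
      rw [hm2]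
      refine Finset.sum_congr rfl fun u _ => Finset.sum_congr rfl fun k _ => ?_
      have g2 : e u k = e u k ^ 2 := by
        by_cases h1 : H.Adj u k
        · rw [h.e1 _ _ h1]; ring
        · rw [h.e0 _ _ h1]; ring
      rw [g2, ← h.xe]
      ring
    have g3 : ∑ u, ∑ k, w u ^ 2 * x u k ^ 2 = N2 := by
      rw [hN2]
      refine Finset.sum_congr rfl fun u _ => ?_
      refine Eq.trans ?_ (h.sq_eq u).symm
      exact Finset.sum_congr rfl fun k _ => by rw [mul_pow]
    have g4 : ∑ u, ∑ k, w k ^ 2 * x u k ^ 2 = N2 := by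
      rw [← g3, Finset.sum_comm]
      exact Finset.sum_congr rfl fun u _ => Finset.sum_congr rfl fun k _ => by rw [h.xs k u]
    have g5 : ∑ u, ∑ k, 2 * (w u * w k * x u k ^ 2) = 2 * E2 := by
      rw [hE2]
      simp_rw [Finset.mul_sum]
    simp_rw [Finset.sum_add_distrib] at g1
    rw [g3, g4, g5] at g1
    linarith
  -- triangles
  have s3 : ∑ k, w k * ∑ u, ∑ v, e u v * x k u * x k v = 2 * T2 := by
    have g1 : ∑ k, w k * ∑ u, ∑ v, e u v * x k u * x k v =
        ∑ k, ∑ u, ∑ v, w k * w u * (x k u * (x k v * x u v)) +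
        ∑ k, ∑ u, ∑ v, w k * w v * (x k v * (x k u * x v u)) := by
      rw [← Finset.sum_add_distrib]
      refine Finset.sum_congr rfl fun k _ => ?_
      rw [Finset.mul_sum, ← Finset.sum_add_distrib]
      refine Finset.sum_congr rfl fun u _ => ?_
      rw [Finset.mul_sum, ← Finset.sum_add_distrib]
      refine Finset.sum_congr rfl fun v _ => ?_
      rw [← h.xe, h.xs v u]
      ring
    have g2 : ∑ k, ∑ u, ∑ v, w k * w u * (x k u * (x k v * x u v)) = T2 := by
      rw [hT2]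
      refine Finset.sum_congr rfl fun k _ => Finset.sum_congr rfl fun u _ => ?_
      rw [hσ]
      dsimp only
      rw [Finset.mul_sum, Finset.mul_sum]
    have g3 : ∑ k, ∑ u, ∑ v, w k * w v * (x k v * (x k u * x v u)) = T2 := by
      rw [← g2]
      exact Finset.sum_congr rfl fun k _ => Finset.sum_comm
    rw [g1, g2, g3]
    ring
  -- first part
  have S1 : 1 / 3 * (m2 + 2 * T2) ≤ ∑ k, ω k * ∑ u, ∑ v, A u v * g k u * g k v := by
    have g1 : ∀ k, ∑ u, ∑ v, e u v * g k u * g k v =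
        2 * ∑ u, x k u + ∑ u, ∑ v, e u v * x k u * x k v := by
      intro k
      have g2 : ∀ u v, e u v * g k u * g k v =
          (if u = k then (if v = k then e u v else 0) else 0) +
          (if u = k then e u v * x k v else 0) + (if v = k then e u v * x k u else 0) +
          e u v * x k u * x k v := by
        intro u v
        rw [hg]
        dsimp only
        split_ifs <;> ring
      simp_rw [g2, Finset.sum_add_distrib]
      have g3 : ∑ u, ∑ v, (if u = k then (if v = k then e u v else 0) else 0) = 0 := by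
        refine Finset.sum_eq_zero fun u _ => Finset.sum_eq_zero fun v _ => ?_
        split_ifs with h1 h2
        · subst h1; subst h2; exact h.e0 _ _ H.irrefl
        · rfl
        · rfl
      have g4 : ∑ u, ∑ v, (if u = k then e u v * x k v else 0) = ∑ u, x k u := by
        rw [Finset.sum_comm]
        refine Finset.sum_congr rfl fun v _ => ?_
        rw [Finset.sum_ite_eq' univ k, if_pos (Finset.mem_univ k), h.ex]
      have g5 : ∑ u, ∑ v, (if v = k then e u v * x k u else 0) = ∑ u, x k u := by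
        refine Finset.sum_congr rfl fun u _ => ?_
        rw [Finset.sum_ite_eq' univ k, if_pos (Finset.mem_univ k), h.es, h.ex]
      rw [g3, g4, g5]
      ring
    have g6 : ∑ k, ω k * ∑ u, ∑ v, e u v * g k u * g k v = 1 / 3 * (m2 + 2 * T2) := by
      simp_rw [g1]
      have g7 : ∀ k, ω k * (2 * ∑ u, x k u + ∑ u, ∑ v, e u v * x k u * x k v) =
          2 / 3 * (∑ u, w k * x k u) + 1 / 3 * (w k * ∑ u, ∑ v, e u v * x k u * x k v) := by
        intro k
        rw [hω, ← Finset.mul_sum]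
        dsimp only
        ring
      simp_rw [g7, Finset.sum_add_distrib, ← Finset.mul_sum] at s1 s3 ⊢
      rw [s3]
      have g8 : ∑ k, w k * ∑ u, x k u = m2 / 2 := s1
      rw [g8]
      ring
    rw [← g6]
    refine Finset.sum_le_sum fun k _ => mul_le_mul_of_nonneg_left ?_ (hω0 k)
    refine Finset.sum_le_sum fun u _ => Finset.sum_le_sum fun v _ => ?_
    exact mul_le_mul_of_nonneg_right (mul_le_mul_of_nonneg_right (hAe u v) (hg0 k u)) (hg0 k v)
  -- second part
  have hσ0 : ∀ k l, 0 ≤ σ k l := fun k l =>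
    Finset.sum_nonneg fun u _ => mul_nonneg (h.x0 k u) (h.x0 l u)
  have hσ1 : ∀ k l, σ k l ≤ 1 := by
    intro k l
    have g1 : σ k l ≤ ∑ u, (x k u ^ 2 + x l u ^ 2) / 2 := by
      refine Finset.sum_le_sum fun u _ => ?_
      nlinarith [sq_nonneg (x k u - x l u)]
    rw [← Finset.sum_div, Finset.sum_add_distrib] at g1
    linarith [h.dle' k, h.dle' l]
  have S2 : ∑ k, ∑ l, ω k * ω l * (∑ u, g k u * g l u) ^ 2 ≤ 1 / 9 * (3 * m2 + 4 * T2) := by
    have g1 : ∀ k l, ∑ u, g k u * g l u = (if k = l then 1 else 0) + 2 * x k l + σ k l := by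
      intro k l
      have g2 : ∀ u, g k u * g l u = (if u = k then (if k = l then 1 else 0) else 0) +
          (if u = k then x l u else 0) + (if u = l then x k u else 0) + x k u * x l u := by
        intro u
        rw [hg]
        dsimp only
        by_cases h1 : u = k
        · subst h1
          by_cases h2 : u = l
          · subst h2; simp; ring
          · simp [h2]; ring
        · by_cases h2 : u = l
          · subst h2; simp [h1]; ring
          · simp [h1, h2]
      simp_rw [g2, Finset.sum_add_distrib]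
      rw [Finset.sum_ite_eq' univ k, if_pos (Finset.mem_univ k), Finset.sum_ite_eq' univ k,
        if_pos (Finset.mem_univ k), Finset.sum_ite_eq' univ l, if_pos (Finset.mem_univ l),
        h.xs l k]
      ring
    have g3 : ∀ k l, ω k * ω l * (∑ u, g k u * g l u) ^ 2 =
        1 / 9 * ((if k = l then w k ^ 2 * (1 + 2 * σ k k) else 0) +
          4 * (w k * w l * x k l ^ 2) + 4 * (w k * w l * (x k l * σ k l)) +
          w k * w l * σ k l ^ 2) := by
      intro k l
      rw [g1, hω]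
      dsimp only
      by_cases h1 : k = l
      · subst h1
        rw [if_pos rfl, if_pos rfl, h.xkk]
        ring
      · rw [if_neg h1, if_neg h1]
        ring
    simp_rw [g3]
    rw [show ∑ k, ∑ l, 1 / 9 * ((if k = l then w k ^ 2 * (1 + 2 * σ k k) else 0) +
          4 * (w k * w l * x k l ^ 2) + 4 * (w k * w l * (x k l * σ k l)) +
          w k * w l * σ k l ^ 2) = 1 / 9 * (∑ k, w k ^ 2 * (1 + 2 * σ k k) +
          4 * E2 + 4 * T2 + ∑ k, ∑ l, w k * w l * σ k l ^ 2) by
      simp_rw [← Finset.mul_sum, Finset.sum_add_distrib]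
      congr 4
      · refine Finset.sum_congr rfl fun k _ => ?_
        rw [Finset.sum_ite_eq univ k, if_pos (Finset.mem_univ k)]
      · rw [hE2]
        simp_rw [Finset.mul_sum]
      · rw [hT2]
        simp_rw [Finset.mul_sum]]
    have g4 : ∑ k, w k ^ 2 * (1 + 2 * σ k k) = 3 * N2 := by
      rw [hN2, Finset.mul_sum]
      refine Finset.sum_congr rfl fun k _ => ?_
      have g5 : w k * σ k k = w k := by
        have := h.deq k
        simp_rw [h.xs _ k] at this
        rw [hσ]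
        simpa [sq] using this
      have g6 : w k ^ 2 * (1 + 2 * σ k k) = w k ^ 2 + 2 * (w k * (w k * σ k k)) := by ring
      rw [g6, g5]
      ring
    have g7 : ∑ k, ∑ l, w k * w l * σ k l ^ 2 ≤ N2 + m2 := by
      have g8 : ∑ k, ∑ l, w k * w l * σ k l ^ 2 ≤ ∑ k, ∑ l, w k * w l * σ k l := by
        refine Finset.sum_le_sum fun k _ => Finset.sum_le_sum fun l _ => ?_
        refine mul_le_mul_of_nonneg_left ?_ (mul_nonneg (h.w0 k) (h.w0 l))
        nlinarith [hσ0 k l, hσ1 k l]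
      have g9 : ∑ k, ∑ l, w k * w l * σ k l = ∑ u, (∑ k, w k * x u k) ^ 2 := by
        have g10 : ∀ u, (∑ k, w k * x u k) ^ 2 = ∑ k, ∑ l, w k * w l * (x k u * x l u) := by
          intro u
          rw [sq, Finset.sum_mul_sum]
          refine Finset.sum_congr rfl fun k _ => Finset.sum_congr rfl fun l _ => ?_
          rw [h.xs u k, h.xs u l]
          ring
        simp_rw [g10]
        calc ∑ k, ∑ l, w k * w l * σ k l
            = ∑ k, ∑ l, ∑ u, w k * w l * (x k u * x l u) := by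
              refine Finset.sum_congr rfl fun k _ => Finset.sum_congr rfl fun l _ => ?_
              rw [hσ, Finset.mul_sum]
          _ = ∑ k, ∑ u, ∑ l, w k * w l * (x k u * x l u) :=
              Finset.sum_congr rfl fun k _ => Finset.sum_comm
          _ = ∑ u, ∑ k, ∑ l, w k * w l * (x k u * x l u) := Finset.sum_comm
      calc _ ≤ _ := g8
        _ = _ := g9
        _ ≤ _ := h.star hH
    rw [g4]
    have : 3 * N2 + 4 * E2 + 4 * T2 + ∑ k, ∑ l, w k * w l * σ k l ^ 2 ≤ 3 * m2 + 4 * T2 := by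
      linarith
    linarith
  have hT0 : 0 ≤ T2 := by
    rw [hT2]
    refine Finset.sum_nonneg fun k _ => Finset.sum_nonneg fun l _ => ?_
    exact mul_nonneg (mul_nonneg (h.w0 k) (h.w0 l)) (mul_nonneg (h.x0 k l) (hσ0 k l))
  linarith

end Comp

end Pool.Agent.SqEnergy
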